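import Pool.Agent.helper62.DP7.Spec

set_option autoImplicit false

namespace Pool.Agent.helper62.DP7

open Finset

/-- Insert a vertex with a neighbour of degree two and two uncoloured square neighbours. -/
theorem CO3_step (hGRD : GRD_stmt) (hOUT : OUT_stmt) {V W : Type} [DecidableEq V] {G : SimpleGraph V}
    {R : W → W → Prop} {L : V → Finset W} (hC : Cov R L) {A : Finset V}
    (h3 : ∀ x ∈ A, (nb G A x).card ≤ 3) {B : Finset V} (hBA : B ⊆ A) (z v t1 t2 : V)
    (hz : z ∈ A) (hv : v ∈ nb G A z) (hv2 : (nb G A v).card = 2) (h12 : t1 ≠ t2)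
    (ht1 : t1 ∈ A) (ht2 : t2 ∈ A) (ht1B : t1 ∉ B) (ht2B : t2 ∉ B) (hs1 : sq G A z t1) (hs2 : sq G A z t2)
    (hcol : Col G R L A B) : Col G R L A (insert z B) := by
  refine hGRD V W G R L hC A B z hcol ?_
  have hT : ({t1, t2} : Finset V) ⊆ A := by
    intro x hx
    simp only [mem_insert, mem_singleton] at hx
    rcases hx with rfl | rfl
    · exact ht1
    · exact ht2
  have hd : Disjoint ({t1, t2} : Finset V) B := by
    rw [Finset.disjoint_left]
    intro x hx
    simp only [mem_insert, mem_singleton] at hx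
    rcases hx with rfl | rfl
    · exact ht1B
    · exact ht2B
  have hs : ∀ x ∈ ({t1, t2} : Finset V), sq G A z x := by
    intro x hx
    simp only [mem_insert, mem_singleton] at hx
    rcases hx with rfl | rfl
    · exact hs1
    · exact hs2
  obtain ⟨-, -, h, -, -⟩ := hOUT V G A B {t1, t2} z hz hBA hT hd hs
  have h' := h h3 ⟨v, hv, hv2.le⟩
  have hc : ({t1, t2} : Finset V).card = 2 := Finset.card_pair h12
  have := h3 z hz
  omega

/-- Insert a vertex of degree two. -/
theorem CO3_two (hGRD : GRD_stmt) (hOUT : OUT_stmt) {V W : Type} [DecidableEq V] {G : SimpleGraph V}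
    {R : W → W → Prop} {L : V → Finset W} (hC : Cov R L) {A : Finset V}
    (h3 : ∀ x ∈ A, (nb G A x).card ≤ 3) {B : Finset V} (hBA : B ⊆ A) (z : V)
    (hz : z ∈ A) (hz2 : (nb G A z).card = 2)
    (hcol : Col G R L A B) : Col G R L A (insert z B) := by
  refine hGRD V W G R L hC A B z hcol ?_
  obtain ⟨-, h, -, -, -⟩ := hOUT V G A B ∅ z hz hBA (by simp) (by simp) (by simp)
  have h' := h h3
  simp only [card_empty] at h'
  omega

/-- The other neighbour of a vertex of degree two. -/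
theorem CO3_other {V : Type} [DecidableEq V] {G : SimpleGraph V} {A : Finset V} {v u : V} (hv2 : (nb G A v).card = 2)
    (hu : u ∈ nb G A v) : ∃ w, w ≠ u ∧ nb G A v = {u, w} := by
  have h1 : ((nb G A v).erase u).card = 1 := by
    rw [card_erase_of_mem hu, hv2]
  obtain ⟨w, hw⟩ := card_eq_one.mp h1
  refine ⟨w, ?_, ?_⟩
  · have : w ∈ (nb G A v).erase u := by rw [hw]; simp
    exact (mem_erase.mp this).1
  · rw [← insert_erase hu, hw]

theorem CO3_mono {V W : Type} {G : SimpleGraph V} {R : W → W → Prop} {L : V → Finset W} {A B B' : Finset V}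
    (h : B' ⊆ B) (hc : Col G R L A B) : Col G R L A B' := by
  obtain ⟨f, h1, h2⟩ := hc
  exact ⟨f, fun v hv => h1 v (h hv), fun u hu v hv => h2 u (h hu) v (h hv)⟩

theorem CO3 (hUNC : UNC_stmt) (hGRD : GRD_stmt) (hOUT : OUT_stmt) : CO3_stmt := by
  intro V W _ G R L hC h6 A v v' u u' hR hv hv' hv2 hv2' hu hu' huu hcol
  obtain ⟨w, hwu, hnv⟩ := CO3_other hv2 hu
  obtain ⟨w', hwu', hnv'⟩ := CO3_other hv2' hu'
  have hw : w ∈ nb G A v := by rw [hnv]; simp
  have hw' : w' ∈ nb G A v' := by rw [hnv']; simp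
  have huA := (mem_nb.mp hu).1
  have huA' := (mem_nb.mp hu').1
  have hwA := (mem_nb.mp hw).1
  have hwA' := (mem_nb.mp hw').1
  have avu := (mem_nb.mp hu).2
  have avu' := (mem_nb.mp hu').2
  have avw := (mem_nb.mp hw).2
  have avw' := (mem_nb.mp hw').2
  have nuv : v ∈ nb G A u := mem_nb.mpr ⟨hv, avu.symm⟩
  have nuv' : v' ∈ nb G A u' := mem_nb.mpr ⟨hv', avu'.symm⟩
  have nwv : v ∈ nb G A w := mem_nb.mpr ⟨hv, avw.symm⟩
  have nwv' : v' ∈ nb G A w' := mem_nb.mpr ⟨hv', avw'.symm⟩
  have hvv : v ≠ v' := by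
    rintro rfl
    exact h6.c3 v u u' avu huu avu'.symm
  have duu := hR.sep v hv hv2 u hu
  have duw := hR.sep v hv hv2 w hw
  have duu' := hR.sep v' hv' hv2' u' hu'
  have duw' := hR.sep v' hv' hv2' w' hw'
  have e1 : u ≠ u' := huu.ne
  -- a vertex of degree 3 is not of degree 2
  have ne32 : ∀ x y, (nb G A x).card = 3 → (nb G A y).card = 2 → x ≠ y := by
    intro x y hx hy hxy
    rw [hxy] at hx
    omega
  have h1 := ne32 u v duu hv2
  have h2 := ne32 u v' duu hv2'
  have h3 := ne32 w v duw hv2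
  have h4 := ne32 w v' duw hv2'
  have h5 := ne32 u' v duu' hv2
  have h6' := ne32 u' v' duu' hv2'
  have h7 := ne32 w' v duw' hv2
  have h8 := ne32 w' v' duw' hv2'
  have e2 : w ≠ u' := by
    rintro rfl
    exact hvv (hR.one w hwA v nwv v' nuv' hv2 hv2')
  have e3 : w' ≠ u := by
    rintro rfl
    exact hvv (hR.one w' hwA' v nuv v' nwv' hv2 hv2')
  have e4 : w ≠ w' := by
    rintro rfl
    exact hvv (hR.one w hwA v nwv v' nwv' hv2 hv2')
  have d3 := hR.le3
  have c0 : Col G R L A (A \ {v, v', u, w, u', w'}) := by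
    refine hUNC V W G R L A {v, v'} {v, v', u, w, u', w'} ?_ ?_ hcol
    · intro x hx
      simp only [mem_insert, mem_singleton] at hx ⊢
      tauto
    · intro s hs x hx
      simp only [mem_insert, mem_singleton] at hs ⊢
      rcases hs with rfl | rfl
      · rw [hnv] at hx
        simp only [mem_insert, mem_singleton] at hx
        tauto
      · rw [hnv'] at hx
        simp only [mem_insert, mem_singleton] at hx
        tauto
  have c1 := CO3_step hGRD hOUT hC d3 (sdiff_subset) w v u v hwA nwv hv2 h1 huA hv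
    (by simp) (by simp) ⟨hwu, Or.inr ⟨v, hv, avw.symm, avu⟩⟩ ⟨h3, Or.inl avw.symm⟩ c0
  have b1 : insert w (A \ {v, v', u, w, u', w'}) ⊆ A := by
    intro x hx
    simp only [mem_insert, mem_sdiff] at hx
    rcases hx with rfl | hx
    · exact hwA
    · exact hx.1
  have c2 := CO3_step hGRD hOUT hC d3 b1 w' v' u' v' hwA' nwv' hv2' h6' huA' hv'
    (by simp [e2.symm]) (by simp [h4.symm]) ⟨hwu', Or.inr ⟨v', hv', avw'.symm, avu'⟩⟩ ⟨h8, Or.inl avw'.symm⟩ c1
  have b2 : insert w' (insert w (A \ {v, v', u, w, u', w'})) ⊆ A := by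
    intro x hx
    rw [mem_insert] at hx
    rcases hx with rfl | hx
    · exact hwA'
    · exact b1 hx
  have c3 := CO3_step hGRD hOUT hC d3 b2 u v u' v huA nuv hv2 h5 huA' hv
    (by simp [e2.symm, hwu'.symm]) (by simp [h3.symm, h7.symm]) ⟨e1, Or.inl huu⟩ ⟨h1, Or.inl avu.symm⟩ c2
  have b3 : insert u (insert w' (insert w (A \ {v, v', u, w, u', w'}))) ⊆ A := by
    intro x hx
    rw [mem_insert] at hx
    rcases hx with rfl | hx
    · exact huA
    · exact b2 hx
  have c4 := CO3_step hGRD hOUT hC d3 b3 u' v' v' v huA' nuv' hv2' hvv.symm hv' hv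
    (by simp [h2.symm, h4.symm, h8.symm]) (by simp [h1.symm, h3.symm, h7.symm]) ⟨h6', Or.inl avu'.symm⟩
    ⟨h5, Or.inr ⟨u, huA, huu.symm, avu.symm⟩⟩ c3
  have b4 : insert u' (insert u (insert w' (insert w (A \ {v, v', u, w, u', w'})))) ⊆ A := by
    intro x hx
    rw [mem_insert] at hx
    rcases hx with rfl | hx
    · exact huA'
    · exact b3 hx
  have c5 := CO3_two hGRD hOUT hC d3 b4 v hv hv2 c4
  have b5 : insert v (insert u' (insert u (insert w' (insert w (A \ {v, v', u, w, u', w'}))))) ⊆ A := by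
    intro x hx
    rw [mem_insert] at hx
    rcases hx with rfl | hx
    · exact hv
    · exact b4 hx
  have c6 := CO3_two hGRD hOUT hC d3 b5 v' hv' hv2' c5
  refine CO3_mono ?_ c6
  intro x hx
  simp only [mem_insert, mem_sdiff, mem_singleton, hx, true_and]
  tauto

end Pool.Agent.helper62.DP7
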